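import Pool.Agent.H85.SpgRel

/-!
# Word calculus for letters: cups, all forms of the third Reidemeister move

`cupX'`, `R3Y'`, `R3frozen'` from `capX`, `R3base`, `R2X`, `R2Y` (MP_5e61f3_gt).
-/

set_option linter.unusedSectionVars false

open Function

namespace Spg

namespace PS

variable {Λ : Type} [Fintype Λ] [DecidableEq Λ]

/-- (P3) The strand `p` passing a cup. -/
theorem cupX' (A B : PS Λ) (p i j : Λ) (hi : p ≠ i) (hj : p ≠ j) (h : i ≠ j) (b : Bool)
    (n : ℤ) :
    EE (attach (attach (attach A (EL i j h)) (XL p i hi b)) (XL p j hj b)) B (n + 1) ↔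
      EE (attach A (EL i j h)) B n := by
  have h1 := capX B A p j i hj hi h.symm b n
  have h2 := (Iso.flip (attach (attach B (XL p j hj b)) (XL p i hi b)) (EL i j h)).EE A (n + 1)
  have h3 := (Iso.flip B (EL i j h)).EE A n
  have h4 : EE (attach (attach (attach A (EL i j h)) (XL p i hi b)) (XL p j hj b)) B (n + 1) ↔
      EE (attach (attach (attach B (XL p j hj b)) (XL p i hi b)) (EL i j h)) A (n + 1) :=
    (EE_attach _ _ _ _).trans ((EE_attach _ _ _ _).trans ((EE_attach _ _ _ _).trans
      (EE_symm _ _ _)))
  have h5 : EE (attach A (EL i j h)) B n ↔ EE (attach B (EL i j h)) A n :=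
    (EE_attach _ _ _ _).trans (EE_symm _ _ _)
  exact h4.trans (h2.trans (h1.trans (h3.symm.trans h5.symm)))

theorem R3true (A B : PS Λ) (p i j : Λ) (hi : p ≠ i) (hj : p ≠ j) (h : i ≠ j) (n : ℤ) :
    EE (attach (attach (attach A (XL p i hi false)) (XL p j hj false)) (YL i j h true)) B n ↔
    EE (attach (attach (attach A (YL i j h true)) (XL p i hi false)) (XL p j hj false)) B n := by
  -- insert `Yb Y` before the word
  have h1 := R2Y A (attach (attach (attach B (YL i j h true)) (XL p j hj false))
    (XL p i hi false)) i j h true n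
  rw [← EE_attach, ← EE_attach, ← EE_attach, ← EE_attach, ← EE_attach, ← EE_attach] at h1
  rw [← h1]
  have h2 := R3base (attach A (YL i j h true)) (attach B (YL i j h true)) p i j hi hj h (n + 1)
  rw [← EE_attach, ← EE_attach] at h2
  have h3 := R2Y (attach (attach (attach A (YL i j h true)) (XL p i hi false)) (XL p j hj false))
    B i j h false n
  exact h2.symm.trans h3

theorem R3false (A B : PS Λ) (p i j : Λ) (hi : p ≠ i) (hj : p ≠ j) (h : i ≠ j) (b' : Bool)
    (n : ℤ) :
    EE (attach (attach (attach A (XL p i hi false)) (XL p j hj false)) (YL i j h b')) B n ↔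
    EE (attach (attach (attach A (YL i j h b')) (XL p i hi false)) (XL p j hj false)) B n := by
  cases b'
  · exact R3base A B p i j hi hj h n
  · exact R3true A B p i j hi hj h n

/-- (P6) Third Reidemeister move, all forms. -/
theorem R3Y' (A B : PS Λ) (p i j : Λ) (hi : p ≠ i) (hj : p ≠ j) (h : i ≠ j) (b b' : Bool)
    (n : ℤ) :
    EE (attach (attach (attach A (XL p i hi b)) (XL p j hj b)) (YL i j h b')) B n ↔
    EE (attach (attach (attach A (YL i j h b')) (XL p i hi b)) (XL p j hj b)) B n := by
  cases b
  · exact R3false A B p i j hi hj h b' n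
  · -- abbreviations
    set Y := YL i j h b' with hY
    set X1' := XL p i hi true with hX1'
    set X2' := XL p j hj true with hX2'
    set X1 := XL p i hi false with hX1
    set X2 := XL p j hj false with hX2
    -- the word `X2 X1 X1' X2'` can be inserted at the end
    have ins : ∀ (C D : PS Λ) (m : ℤ), EE (attach (attach (attach (attach C X2) X1) X1') X2') D
        (m + 2) ↔ EE C D m := by
      intro C D m
      have e1 := R2X (attach C X2) (attach D X2') p i hi false (m + 1)
      rw [← EE_attach, ← EE_attach] at e1
      rw [show m + 2 = m + 1 + 1 by ring]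
      exact e1.trans (R2X C D p j hj false m)
    -- the word `X1' X2' X2 X1` can be inserted
    have ins' : ∀ (C D : PS Λ) (m : ℤ), EE (attach (attach (attach (attach C X1') X2') X2) X1) D
        (m + 2) ↔ EE C D m := by
      intro C D m
      have e1 := R2X (attach C X1') (attach D X1) p j hj true (m + 1)
      rw [← EE_attach, ← EE_attach] at e1
      rw [show m + 2 = m + 1 + 1 by ring]
      exact e1.trans (R2X C D p i hi true m)
    -- commuting `Y` with `X2 X1`
    have com : ∀ (C D : PS Λ) (m : ℤ), EE (attach (attach (attach C X2) X1) Y) D m ↔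
        EE (attach (attach (attach C Y) X2) X1) D m := by
      intro C D m
      have e1 := R3false C D p j i hj hi h.symm b' m
      have e2 := (Iso.flip (attach (attach C X2) X1) Y).EE D m
      have e3 := (((Iso.flip C Y).attach X2).attach X1).EE D m
      exact e2.trans (e1.trans e3.symm)
    have s1 := ins (attach (attach (attach A X1') X2') Y) B n
    have s2 := com (attach (attach A X1') X2') (attach (attach B X2') X1') (n + 2)
    rw [← EE_attach, ← EE_attach, ← EE_attach, ← EE_attach] at s2
    have s3 := ins' A (attach (attach (attach B X2') X1') Y) n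
    rw [← EE_attach, ← EE_attach, ← EE_attach, ← EE_attach, ← EE_attach, ← EE_attach] at s3
    exact s1.symm.trans (s2.symm.trans s3)

/-- Third Reidemeister move with a frozen letter with smoothing `I` or `E`. -/
theorem R3frozen' (A B : PS Λ) (p i j : Λ) (hi : p ≠ i) (hj : p ≠ j) (b : Bool)
    (l : Letter Λ) (hli : l.i = i) (hlj : l.j = j) (c : Bool) (hfr : l.fr = some c)
    (hm : l.mt c = Mt.I ∨ l.mt c = Mt.E) (n : ℤ) :
    EE (attach (attach (attach A (XL p i hi b)) (XL p j hj b)) l) B n ↔
    EE (attach (attach (attach A l) (XL p i hi b)) (XL p j hj b)) B n := by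
  subst hli hlj
  rcases hm with hm | hm
  · have h1 := (Iso.frozenI (attach (attach A (XL p l.i hi b)) (XL p l.j hj b)) l c hfr hm).EE B n
    have h2 := (((Iso.frozenI A l c hfr hm).attach (XL p l.i hi b)).attach
      (XL p l.j hj b)).EE B n
    exact h1.trans h2.symm
  · have e : ∀ (C B : PS Λ) (n : ℤ), EE (attach C l) B n ↔ EE (attach C (EL l.i l.j l.ne)) B n :=
      fun C B n => EE_frozen C l (EL l.i l.j l.ne) c true rfl rfl hfr rfl (by rw [hm]; rfl) B n
    have h1 := e (attach (attach A (XL p l.i hi b)) (XL p l.j hj b)) B n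
    have h2 : EE (attach (attach (attach A l) (XL p l.i hi b)) (XL p l.j hj b)) B n ↔
        EE (attach (attach (attach A (EL l.i l.j l.ne)) (XL p l.i hi b)) (XL p l.j hj b)) B n := by
      rw [EE_attach (attach (attach A l) _), EE_attach (attach A l), e,
        ← EE_attach, ← EE_attach]
    have h3 := capX A B p l.i l.j hi hj l.ne b (n - 1)
    have h4 := cupX' A B p l.i l.j hi hj l.ne b (n - 1)
    rw [sub_add_cancel] at h3 h4
    exact h1.trans (h3.trans (h4.symm.trans h2.symm))

end PS

end Spg
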