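import Pool.Agent.H40.PI

set_option autoImplicit false

namespace Pool.Agent.H27.Split

open Module

section abstractK

variable {R V K : Type} [Ring R] [AddCommGroup V] [Module R V] [Field K] [Module K V]
  [SMulCommClass R K V]

/-- a multilinear map vanishing on a set of generators vanishes on the span -/
theorem multilinear_zero {E F : Type} [AddCommGroup E] [Module K E] [AddCommGroup F] [Module K F]
    {d : ℕ} (Φ : MultilinearMap K (fun _ : Fin d => E) F) (S : Set E)
    (h : ∀ x : Fin d → E, (∀ i, x i ∈ S) → Φ x = 0) :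
    ∀ x : Fin d → E, (∀ i, x i ∈ Submodule.span K S) → Φ x = 0 := by
  suffices H : ∀ n : ℕ, n ≤ d → ∀ x : Fin d → E, (∀ i : Fin d, (i : ℕ) < n → x i ∈ Submodule.span K S) →
      (∀ i : Fin d, n ≤ (i : ℕ) → x i ∈ S) → Φ x = 0 by
    intro x hx
    exact H d le_rfl x (fun i _ => hx i) (fun i hi => absurd i.2 (by omega))
  intro n
  induction n with
  | zero => intro _ x _ hx; exact h x (fun i => hx i (Nat.zero_le _))
  | succ n ih =>
    intro hn x hx1 hx2
    have key : ∀ y ∈ Submodule.span K S, Φ (Function.update x ⟨n, hn⟩ y) = 0 := by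
      intro y hy
      induction hy using Submodule.span_induction with
      | mem y hy =>
        apply ih (by omega)
        · intro i hi
          rw [Function.update_of_ne (by rintro rfl; simp at hi)]
          exact hx1 i (by omega)
        · intro i hi
          by_cases hin : i = ⟨n, hn⟩
          · subst hin; simpa using hy
          · rw [Function.update_of_ne hin]
            apply hx2 i
            have : (i : ℕ) ≠ n := fun h => hin (Fin.ext h)
            omega
      | zero => simp
      | add y z _ _ h1 h2 => rw [MultilinearMap.map_update_add, h1, h2, add_zero]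
      | smul k y _ h1 => rw [MultilinearMap.map_update_smul, h1, smul_zero]
    have := key (x ⟨n, hn⟩) (hx1 _ (by simp))
    rwa [Function.update_eq_self] at this

/-- the representation -/
noncomputable abbrev rho (R V K : Type) [Ring R] [AddCommGroup V] [Module R V] [Field K]
    [Module K V] [SMulCommClass R K V] : R →+* Module.End K V := Module.toModuleEnd K (S := R) V

/-- the algebra generated by the image -/
noncomputable def alg (R V K : Type) [Ring R] [AddCommGroup V] [Module R V] [Field K]
    [Module K V] [SMulCommClass R K V] : Subalgebra K (Module.End K V) :=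
  Algebra.adjoin K (Set.range (rho R V K))

theorem alg_toSubmodule : Subalgebra.toSubmodule (alg R V K) =
    Submodule.span K (Set.range (rho R V K)) := by
  rw [alg, Algebra.adjoin_eq_span]
  congr 1
  have : Set.range (rho R V K) = ((MonoidHom.mrange (rho R V K : R →* Module.End K V) :
      Submonoid (Module.End K V)) : Set (Module.End K V)) := by
    ext; simp
  rw [this, Submonoid.closure_eq]

theorem mulId_alg {d : ℕ} {c : Equiv.Perm (Fin d) → ℤ} (hR : H40.MulId R d c) :
    H40.MulId (alg R V K) d c := by
  intro x
  let Φ : MultilinearMap K (fun _ : Fin d => Module.End K V) (Module.End K V) :=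
    ∑ σ : Equiv.Perm (Fin d), (c σ) • (MultilinearMap.mkPiAlgebraFin K d (Module.End K V)).domDomCongr σ
  have hΦ : ∀ y : Fin d → Module.End K V, Φ y =
      ∑ σ : Equiv.Perm (Fin d), ((c σ : ℤ) : Module.End K V) * (List.ofFn (fun i => y (σ i))).prod := by
    intro y
    simp only [Φ, sum_apply, smul_apply]
    refine Finset.sum_congr rfl fun σ _ => ?_
    rw [zsmul_eq_mul]
    congr 1
  have h0 : ∀ y : Fin d → Module.End K V, (∀ i, y i ∈ Set.range (rho R V K)) → Φ y = 0 := by
    intro y hy
    choose r hr using hy
    rw [hΦ]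
    have := congrArg (rho R V K) (hR r)
    rw [map_zero, map_sum] at this
    rw [← this]
    refine Finset.sum_congr rfl fun σ _ => ?_
    rw [map_mul, map_intCast, map_list_prod, List.map_ofFn]
    congr 3
    ext1 i
    simp [hr]
  have h1 := multilinear_zero Φ _ h0 (fun i => (x i : Module.End K V)) (fun i => by
    rw [← alg_toSubmodule]; exact (x i).2)
  rw [hΦ] at h1
  apply Subtype.ext
  refine Eq.trans ?_ h1
  have := map_sum (alg R V K).val (fun σ : Equiv.Perm (Fin d) =>
    (((c σ : ℤ) : alg R V K)) * (List.ofFn (fun i => x (σ i))).prod) Finset.univ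
  refine Eq.trans this ?_
  refine Finset.sum_congr rfl fun σ _ => ?_
  rw [map_mul, map_intCast, map_list_prod, List.map_ofFn]
  rfl

theorem simple_alg [IsSimpleModule R V] : IsSimpleModule (alg R V K) V := by
  have h := isSimpleModule_iff_toSpanSingleton_surjective.mp (inferInstance : IsSimpleModule R V)
  have := h.1
  rw [isSimpleModule_iff_toSpanSingleton_surjective]
  refine ⟨h.1, fun v hv w => ?_⟩
  obtain ⟨r, hr⟩ := h.2 v hv w
  refine ⟨⟨rho R V K r, Algebra.subset_adjoin ⟨r, rfl⟩⟩, ?_⟩
  exact hr

/-- the hypothesis that the commutant of the algebra is the field -/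
def Commutant (R V K : Type) [Ring R] [AddCommGroup V] [Module R V] [Field K] [Module K V] : Prop :=
  ∀ f : V →+ V, (∀ (r : R) (v : V), f (r • v) = r • f v) → (∀ (k : K) (v : V), f (k • v) = k • f v) →
    ∃ k : K, ∀ v, f v = k • v

theorem end_alg (hcom : Commutant R V K) (f : Module.End (alg R V K) V) :
    ∃ k : K, ∀ v, f v = k • v := by
  apply hcom (f : V →+ V)
  · intro r v
    exact f.map_smul (⟨rho R V K r, Algebra.subset_adjoin ⟨r, rfl⟩⟩ : alg R V K) v
  · intro k v
    exact f.map_smul (algebraMap K (alg R V K) k) v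

theorem rank_K_le (hcom : Commutant R V K) [IsSimpleModule R V] :
    have := simple_alg (R := R) (V := V) (K := K)
    Module.rank K V = Module.rank (Module.End (alg R V K) V) V := by
  have := simple_alg (R := R) (V := V) (K := K)
  have : Nontrivial V := IsSimpleModule.nontrivial R V
  let i : K → Module.End (alg R V K) V := fun k =>
    { toFun := fun v => k • v
      map_add' := smul_add k
      map_smul' := fun a v => ((a : Module.End K V).map_smul k v).symm }
  refine rank_eq_of_equiv_equiv i (AddEquiv.refl V) ⟨?_, ?_⟩ (fun k v => rfl)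
  · intro k k' hk
    obtain ⟨v, hv⟩ := exists_ne (0 : V)
    have h1 : k • v = k' • v := congrArg (fun g : Module.End (alg R V K) V => g v) hk
    exact smul_left_injective K hv h1
  · intro f
    obtain ⟨k, hk⟩ := end_alg hcom f
    exact ⟨k, LinearMap.ext fun v => (hk v).symm⟩

theorem main_abstract (hcom : Commutant R V K) [IsSimpleModule R V] {d : ℕ} (hd : 0 < d)
    {c : Equiv.Perm (Fin d) → ℤ} (hc : c 1 = 1) (hR : H40.MulId R d c) :
    Module.Finite K V ∧ Module.finrank K V < d ∧
      Submodule.span K (Set.range (rho R V K)) = ⊤ := by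
  have := simple_alg (R := R) (V := V) (K := K)
  have h1 := H40.rank_lt (S := alg R V K) (V := V) hd hc (mulId_alg hR)
  have h2 := H40.finite_of_PI (S := alg R V K) (V := V) hd hc (mulId_alg hR)
  rw [← rank_K_le hcom] at h1
  have h3 : Module.Finite K V := Module.rank_lt_aleph0_iff.mp (h1.trans (Cardinal.natCast_lt_aleph0))
  refine ⟨h3, ?_, ?_⟩
  · rw [← Module.finrank_eq_rank] at h1
    exact_mod_cast h1
  · rw [← alg_toSubmodule, Submodule.eq_top_iff']
    intro f
    let F : Module.End (Module.End (alg R V K) V) V :=
      { toFun := f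
        map_add' := map_add f
        map_smul' := fun g v => by
          obtain ⟨k, hk⟩ := end_alg hcom g
          simp only [RingHom.id_apply, Module.End.smul_def, hk, map_smul] }
    obtain ⟨a, ha⟩ := Module.Finite.toModuleEnd_moduleEnd_surjective (R := alg R V K) (M := V) F
    have : f = (a : Module.End K V) := by
      ext v
      exact (congrArg (fun G : Module.End (Module.End (alg R V K) V) V => G v) ha).symm
    rw [this]
    exact a.2

end abstractK

/-- a maximal set of pairwise commuting elements -/
theorem exists_max_comm (D : Type) [Mul D] : ∃ M : Set D, (∀ x ∈ M, ∀ y ∈ M, x * y = y * x) ∧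
    ∀ z : D, (∀ x ∈ M, x * z = z * x) → z ∈ M := by
  obtain ⟨M, hM⟩ := zorn_subset {s : Set D | ∀ x ∈ s, ∀ y ∈ s, x * y = y * x} (by
    intro C hC hchain
    refine ⟨⋃₀ C, ?_, fun s hs => Set.subset_sUnion_of_mem hs⟩
    rintro x ⟨s, hs, hx⟩ y ⟨t, ht, hy⟩
    rcases hchain.total hs ht with h | h
    · exact hC ht x (h hx) y hy
    · exact hC hs x hx y (h hy))
  refine ⟨M, hM.prop, fun z hz => ?_⟩
  have h1 : insert z M ∈ {s : Set D | ∀ x ∈ s, ∀ y ∈ s, x * y = y * x} := by
    rintro x (rfl | hx) y (rfl | hy)
    · rfl
    · exact (hz y hy).symm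
    · exact hz x hx
    · exact hM.prop x hx y hy
  exact hM.le_of_ge h1 (Set.subset_insert z M) (Set.mem_insert z M)

open Classical in
theorem exists_split {R V : Type} [Ring R] [AddCommGroup V] [Module R V] [IsSimpleModule R V]
    {d : ℕ} (hd : 0 < d) {c : Equiv.Perm (Fin d) → ℤ} (hc : c 1 = 1) (hR : H40.MulId R d c) :
    ∃ (K : Type) (_ : Field K) (k : ℕ), 0 < k ∧ k < d ∧
      ∃ psi : R →+* Matrix (Fin k) (Fin k) K, (∀ r, psi r = 0 ↔ ∀ v : V, r • v = 0) ∧
        Submodule.span K (Set.range psi) = ⊤ := by
  have hV : Nontrivial V := IsSimpleModule.nontrivial R V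
  obtain ⟨M, hM1, hM2⟩ := exists_max_comm (Module.End R V)
  let L : Subfield (Module.End R V) :=
    { carrier := M
      mul_mem' := fun {a b} ha hb => hM2 _ fun x hx => by
        rw [← mul_assoc, hM1 x hx a ha, mul_assoc, hM1 x hx b hb, mul_assoc]
      one_mem' := hM2 _ fun x hx => by rw [mul_one, one_mul]
      add_mem' := fun {a b} ha hb => hM2 _ fun x hx => by
        rw [mul_add, add_mul, hM1 x hx a ha, hM1 x hx b hb]
      zero_mem' := hM2 _ fun x hx => by rw [mul_zero, zero_mul]
      neg_mem' := fun {a} ha => hM2 _ fun x hx => by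
        rw [mul_neg, neg_mul, hM1 x hx a ha]
      inv_mem' := fun a ha => hM2 _ fun x hx => by
        by_cases h0 : a = 0
        · rw [h0, inv_zero, mul_zero, zero_mul]
        · have := hM1 x hx a ha
          have h1 : a⁻¹ * (x * a) * a⁻¹ = a⁻¹ * (a * x) * a⁻¹ := by rw [this]
          rw [← mul_assoc, mul_assoc (a⁻¹ * x), mul_inv_cancel₀ h0, mul_one, ← mul_assoc,
            inv_mul_cancel₀ h0, one_mul] at h1
          exact h1.symm }
  letI : Field L := { (inferInstance : DivisionRing L) with
    mul_comm := fun a b => Subtype.ext (hM1 a.1 a.2 b.1 b.2) }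
  have hsc : SMulCommClass R L V := ⟨fun r k v => ((k : Module.End R V).map_smul r v).symm⟩
  have hcom : Commutant R V L := by
    intro f hf1 hf2
    let F : Module.End R V := { toFun := f, map_add' := map_add f, map_smul' := hf1 }
    refine ⟨⟨F, hM2 F fun x hx => ?_⟩, fun v => rfl⟩
    ext v
    exact (hf2 ⟨x, hx⟩ v).symm
  obtain ⟨h1, h2, h3⟩ := main_abstract hcom hd hc hR
  let b := Module.finBasis L V
  refine ⟨L, inferInstance, Module.finrank L V, Module.finrank_pos, h2,
    ((LinearMap.toMatrixAlgEquiv b : Module.End L V ≃ₐ[L] _) : Module.End L V →+* _).comp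
      (rho R V L), ?_, ?_⟩
  · intro r
    constructor
    · intro h v
      have h4 : (LinearMap.toMatrixAlgEquiv b) (rho R V L r) = 0 := h
      rw [map_eq_zero_iff _ (LinearMap.toMatrixAlgEquiv b).injective] at h4
      exact congrArg (fun g : Module.End L V => g v) h4
    · intro h
      have h4 : rho R V L r = 0 := LinearMap.ext h
      change (LinearMap.toMatrixAlgEquiv b) (rho R V L r) = 0
      rw [h4, map_zero]
  · have h5 : Set.range (((LinearMap.toMatrixAlgEquiv b : Module.End L V ≃ₐ[L] _) :
        Module.End L V →+* _).comp (rho R V L)) =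
        (LinearMap.toMatrixAlgEquiv b).toLinearMap '' Set.range (rho R V L) := by
      rw [← Set.range_comp]; rfl
    rw [h5, ← Submodule.map_span, h3, Submodule.map_top, LinearMap.range_eq_top]
    exact (LinearMap.toMatrixAlgEquiv b).surjective

end Pool.Agent.H27.Split
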